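import Pool.Agent.MWKP.Stmts

set_option autoImplicit false

/-!
# MWKP, row TOT: the total residue bit
-/

namespace Pool.Agent.MWKP.H23

open Pool.Agent.Helper14_MV Pool.Agent.Helper2_MV Pool.Agent.MWK Pool.Agent.MWKP

theorem pw_add' (a b : ℕ) (X : List ℕ) : pw (a + b) X = pw a X ++ pw b X := by
  unfold pw
  rw [List.replicate_add, List.flatten_append]

theorem count_pw (a : ℕ) (X : List ℕ) (l : ℕ) : (pw a X).count l = a * X.count l := by
  induction a with
  | zero => simp [pw]
  | succ a ih =>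
    have h1 : pw (a + 1) X = X ++ pw a X := by
      unfold pw
      rw [List.replicate_succ, List.flatten_cons]
    rw [h1, List.count_append, ih]
    ring

theorem mem_pw {a : ℕ} {X : List ℕ} {l : ℕ} (h : l ∈ pw a X) : l ∈ X := by
  unfold pw at h
  rw [List.mem_flatten] at h
  obtain ⟨s, hs, hl⟩ := h
  rw [List.eq_of_mem_replicate hs] at hl
  exact hl

theorem flatMap_rep (a x : ℕ) (X : List ℕ) :
    (List.replicate a x).flatMap (fun _ => X) = pw a X := by
  induction a with
  | zero => rfl
  | succ a ih =>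
    rw [List.replicate_succ, List.flatMap_cons, ih]
    unfold pw
    rw [List.replicate_succ, List.flatten_cons]

theorem tot (hKDD : KddStmt) : TotStmt := by
  intro n θ hK u v x h P X Q hX
  have hn := hK.pos
  obtain ⟨a, ha⟩ : ∃ a, a = u.count x := ⟨_, rfl⟩
  obtain ⟨b, hb⟩ : ∃ b, b = v.count x := ⟨_, rfl⟩
  have f1 := (h.filter (fun d => d == x)).sub (fun _ => X)
  rw [List.filter_beq, List.filter_beq, flatMap_rep, flatMap_rep, ← ha, ← hb] at f1
  unfold df
  rw [← ha, ← hb, pw_add']
  have s1 : RR θ (P ++ (pw a X ++ pw ((n - 1) * b) X) ++ Q)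
      (P ++ (pw b X ++ pw ((n - 1) * b) X) ++ Q) :=
    ((RR.refl P).append (f1.append (RR.refl _))).append (RR.refl Q)
  have s2 := hKDD n θ hK P (pw b X ++ pw ((n - 1) * b) X) [] Q (by
    intro l hl
    rcases List.mem_append.1 hl with h1 | h1
    · exact hX l (mem_pw h1)
    · exact hX l (mem_pw h1)) (fun l hl => absurd hl List.not_mem_nil) (by
    intro l
    rw [List.count_append, count_pw, count_pw, List.count_nil, Nat.modEq_zero_iff_dvd]
    refine ⟨b * X.count l, ?_⟩
    obtain ⟨m, rfl⟩ : ∃ m, n = m + 1 := ⟨n - 1, by omega⟩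
    rw [Nat.add_sub_cancel]
    ring)
  rw [List.append_nil] at s2
  exact θ.trans s1 s2

end Pool.Agent.MWKP.H23
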